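import Pool.Agent.helper84.NR.Spec

set_option autoImplicit false

namespace Pool.Agent.helper84.NR

open scoped Classical
open Finset

lemma PAR_face (hIDX : IDX_stmt) {V F : Type} [Fintype V] (M : Cyc V F) (f : F) (v : V) :
    Even (univ.filter (fun e : Sym2 V => v ∈ e ∧ OnE M f e)).card := by
  by_cases h : OnV M f v
  · obtain ⟨k0, hk⟩ := h
    obtain ⟨h1, h2, h3, h4, h5⟩ := hIDX V F M f k0
    have h3' := M.three f
    have hl : k0 + (M.len f - 1) + 1 = k0 + M.len f := by omega
    have hset : (univ.filter (fun e : Sym2 V => v ∈ e ∧ OnE M f e)) =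
        {s(v, M.bd f (k0 + 1)), s(M.bd f (k0 + (M.len f - 1)), v)} := by
      ext e
      simp only [mem_filter, mem_univ, true_and, mem_insert, mem_singleton]
      constructor
      · rintro ⟨hv, he⟩
        obtain ⟨a, ha, rfl⟩ := h3 e he
        rw [Sym2.mem_iff] at hv
        rcases hv with hv | hv
        · have : (0 : ℕ) = a := h1 0 a (by omega) ha (by rw [add_zero, hk]; exact hv)
          subst this
          left
          rw [add_zero, hk]
        · by_cases ha' : a + 1 < M.len f
          · have := h1 0 (a + 1) (by omega) ha' (by rw [add_zero, hk]; exact hv)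
            omega
          · have ha2 : a = M.len f - 1 := by omega
            subst ha2
            right
            rw [hl, h5, hk]
      · rintro (rfl | rfl)
        · refine ⟨by simp, k0, by rw [hk]⟩
        · refine ⟨by simp, k0 + (M.len f - 1), ?_⟩
          rw [hl, h5, hk]
    rw [hset, card_pair]
    · exact even_two
    · intro heq
      rw [Sym2.eq_swap (a := M.bd f (k0 + (M.len f - 1))), Sym2.congr_right] at heq
      have := h1 1 (M.len f - 1) (by omega) (by omega) heq
      omega
  · have hset : (univ.filter (fun e : Sym2 V => v ∈ e ∧ OnE M f e)) = ∅ := by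
      apply filter_eq_empty_iff.2
      rintro e - ⟨hv, k, rfl⟩
      rw [Sym2.mem_iff] at hv
      rcases hv with hv | hv
      · exact h ⟨k, hv.symm⟩
      · exact h ⟨k + 1, hv.symm⟩
    rw [hset]
    simp

theorem PAR (hIDX : IDX_stmt) : PAR_stmt := by
  intro V F _ _ M S v
  have hdc := sum_card_bipartiteAbove_eq_sum_card_bipartiteBelow
    (s := (univ : Finset (Sym2 V))) (t := (univ : Finset F).filter (· ∈ S))
    (fun (e : Sym2 V) (f : F) => v ∈ e ∧ OnE M.toCyc f e)
  have hev : Even (∑ e : Sym2 V, #(((univ : Finset F).filter (· ∈ S)).bipartiteAbove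
      (fun (e : Sym2 V) (f : F) => v ∈ e ∧ OnE M.toCyc f e) e)) := by
    rw [hdc]
    apply Finset.even_sum
    intro f _
    exact PAR_face hIDX M.toCyc f v
  rw [Finset.even_sum_iff_even_card_odd] at hev
  convert hev using 2
  ext e
  simp only [mem_filter, mem_univ, true_and]
  constructor
  · rintro ⟨hv, ⟨f, hf, hfS⟩, g, hg, hgS⟩
    obtain ⟨g', hg'1, hg'2, hg'3⟩ := M.two e f hf
    have hgg : g = g' := by
      rcases hg'3 g hg with h | h
      · exact absurd (h ▸ hfS) hgS
      · exact h
    have : ((univ : Finset F).filter (· ∈ S)).bipartiteAbove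
      (fun (e : Sym2 V) (f : F) => v ∈ e ∧ OnE M.toCyc f e) e = {f} := by
      ext h
      simp only [bipartiteAbove, mem_filter, mem_univ, true_and, mem_singleton]
      constructor
      · rintro ⟨h1, -, h2⟩
        rcases hg'3 h h2 with h' | h'
        · exact h'
        · exact absurd (hgg ▸ h' ▸ h1) hgS
      · rintro rfl
        exact ⟨hfS, hv, hf⟩
    rw [this, card_singleton]
    exact odd_one
  · intro hodd
    have hne : (((univ : Finset F).filter (· ∈ S)).bipartiteAbove
      (fun (e : Sym2 V) (f : F) => v ∈ e ∧ OnE M.toCyc f e) e).Nonempty := by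
      rw [← card_pos]
      exact hodd.pos
    obtain ⟨f, hf⟩ := hne
    simp only [bipartiteAbove, mem_filter, mem_univ, true_and] at hf
    obtain ⟨hfS, hv, hfe⟩ := hf
    obtain ⟨g, hg1, hg2, hg3⟩ := M.two e f hfe
    refine ⟨hv, ⟨f, hfe, hfS⟩, g, hg2, ?_⟩
    intro hgS
    have : ((univ : Finset F).filter (· ∈ S)).bipartiteAbove
      (fun (e : Sym2 V) (f : F) => v ∈ e ∧ OnE M.toCyc f e) e = {f, g} := by
      ext h
      simp only [bipartiteAbove, mem_filter, mem_univ, true_and, mem_insert, mem_singleton]
      constructor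
      · rintro ⟨h1, -, h2⟩
        exact hg3 h h2
      · rintro (rfl | rfl)
        · exact ⟨hfS, hv, hfe⟩
        · exact ⟨hgS, hv, hg2⟩
    rw [this, card_pair hg1.symm] at hodd
    exact absurd hodd (by decide)

end Pool.Agent.helper84.NR
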